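import Pool.Agent.U365.POW.J
import Pool.Agent.Results.MP_0b15c0_nt.MultiplicativeValues

/-!
# Small witnesses for all integers near `s(m)`, `m - φ(m)` and `α m + β f(m)`

Let `s(m)` be the sum of the proper divisors of `m`. Let `G` be a function with steps bounded below by a positive constant and
growth at most `v ^ d`, for example `G v = v`, let `A ≥ 2`, `κ ≥ 0` and `e = d / A + κ < 1`. For a set of `m` of lower density at
least `1 - e`, EVERY integer `n ≥ 2` with `|n - G (s(m))| ≤ s(m) ^ κ` is prime or has a witness `1 < b ≤ 2 (log n) ^ A` for the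
strong pseudoprimality test; and the same holds for `m - φ(m)`. More precisely this holds for almost all `m` with a divisor
`≥ m ^ (e + ρ)` which is a prime or the product of two different primes, and for the values `g = α m + β f(m)` of multiplicative
functions with `f p = p + c` at the primes, uniformly in `|α|, |β| ≤ N ^ δ` and with a power saving in the number of the
exceptional `m`.

Proof. The number of the exceptional `n ≤ X` is at most `X ^ (1 / A + ε)` (starting theorem). Let `m = k v p` with large primes
`p ≠ v`. Then `g = A' v p + B (v + p) + B c`, `A' = α k + β f(k)`, `B = β c f(k)`, and so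
`(A' v + B) (A' p + B) = A' g + B² - A' B c`: for given `g`, `k`, `α`, `β` there are only `N^o(1)` possibilities for `p` and `v`.

If the exponent `e` is smaller than `1/2`, no divisor is needed: the property holds for almost all `m` (for all `m ≤ N` but at
most `N / (log N) ^ A`, for every `A`), for all `α ≠ 0`, `β`. Here we use the divisors `D` of `m` without small prime factors:
`α m` is congruent to `g` modulo `f(D)`; if the size of all such `D` is inconvenient, then `m = R D` where the prime factors of
`D` are so large that `D` lies in a short interval which is given by `R` and `g`.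
-/

set_option autoImplicit false

namespace Pool.Agent.Results.MP_0b15c0_nt.AliquotValues

open Finset
open Pool.Agent.U365.POW (Law law_good_nat law_mono)
open Pool.Agent.N733.TG (Expanding)
open Pool.Agent.Results.MP_0b15c0_nt.SquareRootExceptions (IsWitness Exceptions)
open Pool.Agent.Results.MP_0b15c0_nt.MultiplicativeValues (Decided)

/-- EVERY integer `n ≥ 2` with `|n - G g| ≤ g ^ κ` is prime or has a witness `1 < b ≤ 2 (log n) ^ A` for the strong test. -/
def Near (A : ℝ) (G : ℕ → ℝ) (κ : ℝ) (g : ℕ) : Prop :=
  ∀ n : ℕ, 2 ≤ n → |(n : ℝ) - G g| ≤ (g : ℝ) ^ κ → Decided A n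

/-- **Theorem.** Let `G` have steps `≥ a > 0` and growth at most `v ^ d`, `A ≥ 2`, `κ ≥ 0` and `e = d / A + κ < 1`. The property
`Near` holds for the values of similar functions as the aliquot sum with the exponent `e` (`Law`): if this exponent is smaller
than `1/2`, then (1) for ALL `α m + β f(m)` at almost all `m`, and so for `s(m)` and `m - φ(m)` for almost all `m`; in general,
(2) at almost all the `m` with a divisor `≥ m ^ (e + ρ)` which is a prime or the product of two different primes, and for `s(m)`
and `m - φ(m)` for a set of `m` of lower density at least `1 - (e)`. -/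
theorem result : ∀ (G : ℕ → ℝ) (d : ℝ), Expanding G d → ∀ A κ : ℝ, 2 ≤ A → 0 ≤ κ → d / A + κ < 1 →
    Law (d / A + κ) (Near A G κ) := by
  intro G d hG A κ hA hκ h1
  have he : d * (1 / A) = d / A := mul_one_div d A
  have h2 := law_good_nat (fun n => 2 ≤ n) (Decided A) hG (s := 1 / A) (κ := κ) (by positivity) hκ
    (by rw [he]; exact h1) (fun ε hε => by
      obtain ⟨K, hK⟩ := Pool.Agent.Results.MP_0b15c0_nt.SquareRootExceptions.result A ε hA hε
      refine ⟨K, fun X hX => le_trans ?_ (hK X hX).2⟩
      have : {t : ℕ | 1 ≤ t ∧ t ≤ X ∧ 2 ≤ t ∧ ¬ Decided A t} ⊆ Exceptions A X := by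
        rintro n ⟨_, h4, h2, h3⟩
        unfold Decided at h3
        push Not at h3
        exact ⟨h4, h2, h3.1, fun ⟨b, b1, b2, b3⟩ => h3.2 b b1 b2 b3⟩
      exact_mod_cast Set.ncard_le_ncard this (hK X hX).1)
  rw [he] at h2
  have hm : ∀ g : ℕ, (∀ n : ℕ, 1 ≤ n → 2 ≤ n → |(n : ℝ) - G g| ≤ (g : ℝ) ^ κ → Decided A n) → Near A G κ g :=
    fun g hg n hn hw => hg n (by omega) hn hw
  exact law_mono h2 hm

end Pool.Agent.Results.MP_0b15c0_nt.AliquotValues
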