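import Pool.Agent.U536.DS.F
import Pool.Agent.Results.MP_0b15c0_nt.MultiplicativeValues

/-!
# Small witnesses near all integral combinations of two divisors of a value of a multiplicative function

Let `f` be a positive multiplicative function of at most polynomial growth such that `f p ≤ M p` for the large primes `p`,
with different values at different large primes; for example Euler's function. Let `1 / 2 < b < 1` and `0 ≤ c < 2 b - 1`.
For all `m ≤ N` but `N exp (-(log N)^c)`, for EVERY integer `w ≥ exp ((log N)^b)` of the form `w = u s + v t` with divisors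
`s`, `t` of `f(m)` and integers `|u|, |v| ≤ exp ((log N)^θ)`, EVERY integer `n ≥ 2` with `|n - G w| ≤ w^κ` is prime or has a
witness `≤ 2 (log n)^A`, if `d / A + κ < 1`, `θ < b`. The integers `w` include all large divisors of `f(m)` and the large
sums and differences of ANY two divisors of `f(m)`; for Euler's function, those of the orders of any two units modulo `m`.

Proof. Write `m = k u` with `u` squarefree and composed of primes `> z = N^(1/J)`, `J = (log N)^a`, and `k ≤ exp (4 (log
N)^a)`. If `v ∣ f(k) f(u)`, then `v = g v'` with `g ∣ f(k)` and `v' ∣ ∏ f(p)`, and the number of such `u ≤ N / k` is at most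
`N / (k v')` times a power `(log N)^O(J)` times the number `τ_J(v')` of the ordered factorizations of `v'` into `J` factors.
Take for `v` the least common multiple of `s` and `t`: the sum of `1 / [s, t]` over the pairs `s, t ≤ X` with `u s + v t =
w` is at most `4 U (1 + log X) τ(w) / w` if `|u|, |v| ≤ U`; the inequality `τ_J^q ≤ τ_K` for `K ≥ J^q` and Hölder's
inequality bound the sum over the pairs with exceptional `w`. The integers of the hand-in `CommonFactors` of this page have
a large common factor with `f(m)`; the sums and differences of two divisors of `f(m)` have in general none.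
-/

set_option autoImplicit false

namespace Pool.Agent.Results.MP_0b15c0_nt.DivisorSums

open Finset
open Pool.Agent.N733.TG (LM Expanding lm_totient lm_sigma expanding_pow)
open Pool.Agent.U536.DS (Comb comb_good_nat comb_pm comb_orders)
open Pool.Agent.Results.MP_0b15c0_nt.SquareRootExceptions (IsWitness Exceptions)
open Pool.Agent.Results.MP_0b15c0_nt.MultiplicativeValues (Decided)

/-- **Small witnesses near the integral combinations of two divisors of `f(m)`.** Let `f` be multiplicative and positive, of at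
most polynomial growth, with `f p ≤ M p` at the large primes, and injective there. Let `G` have steps `≥ a > 0` and growth
at most `v^d`. Let `A ≥ 2`, `κ ≥ 0`, `d / A + κ < 1`, `θ < b`, `b < 1` and `0 ≤ c < 2 b - 1`. For all large `N`, for all `m
≤ N` but `N exp (-(log N)^c)`, for EVERY integer `w ≥ exp ((log N)^b)` of the form `w = u s + v t` with divisors `s`, `t` of
`f(m)` and integers `|u|, |v| ≤ exp ((log N)^θ)`, EVERY integer `n ≥ 2` with `|n - G w| ≤ w^κ` is prime or has a witness `1
< b ≤ 2 (log n)^A`. All the sums and differences `≥ exp ((log N)^b)` of two divisors of `f(m)` are such integers `w`, and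
for Euler's function those of the orders of two units modulo `m`. -/
theorem result :
    (∀ f : ℕ → ℕ, LM f → ∀ (G : ℕ → ℝ) (d : ℝ), Expanding G d → ∀ A κ θ b c : ℝ, 2 ≤ A → 0 ≤ κ → d / A + κ < 1 → θ < b →
      b < 1 → 0 ≤ c → c < 2 * b - 1 → ∃ N₀ : ℕ, ∀ N : ℕ, N₀ ≤ N →
      ({m : ℕ | 1 ≤ m ∧ m ≤ N ∧ ¬ ∀ w : ℕ, Comb f b θ N m w → ∀ n : ℕ, 2 ≤ n → |(n : ℝ) - G w| ≤ (w : ℝ) ^ κ →
        Decided A n}.ncard : ℝ) ≤ N * Real.exp (-(Real.log N ^ c))) ∧
    (LM Nat.totient ∧ LM (fun m => ∑ d ∈ m.divisors, d)) ∧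
    (∀ α d : ℝ, 0 < α → 1 ≤ d → Expanding (fun v => α * (v : ℝ) ^ d) d) ∧
    (∀ (f : ℕ → ℕ) (b θ : ℝ) (N m s t : ℕ), s ∣ f m → t ∣ f m →
      (Real.exp (Real.log N ^ b) ≤ ((s + t : ℕ) : ℝ) → Comb f b θ N m (s + t)) ∧
      (Real.exp (Real.log N ^ b) ≤ ((s - t : ℕ) : ℝ) → Comb f b θ N m (s - t)) ∧
      (Real.exp (Real.log N ^ b) ≤ (s : ℝ) → Comb f b θ N m s)) ∧
    ∀ (b θ : ℝ) (N m : ℕ) (x y : (ZMod m)ˣ),
      (Real.exp (Real.log N ^ b) ≤ ((orderOf x + orderOf y : ℕ) : ℝ) → Comb Nat.totient b θ N m (orderOf x + orderOf y)) ∧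
      (Real.exp (Real.log N ^ b) ≤ ((orderOf x - orderOf y : ℕ) : ℝ) → Comb Nat.totient b θ N m (orderOf x - orderOf y)) := by
  refine ⟨fun f hf G d hG A κ θ b c hA hκ h1 hθ hb hc hcb => ?_, ⟨lm_totient, lm_sigma⟩,
    fun α d hα hd => expanding_pow hα hd, fun f b θ N m s t hs ht => comb_pm hs ht,
    fun b θ N m x y => comb_orders x y⟩
  obtain ⟨N₀, hN₀⟩ := comb_good_nat (fun n => 2 ≤ n) (Decided A) hf hG (s := 1 / A) (κ := κ) (by positivity) hκ
    (by rw [mul_one_div]; exact h1) hθ hb hc hcb (fun ε hε => by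
      obtain ⟨K, hK⟩ := Pool.Agent.Results.MP_0b15c0_nt.SquareRootExceptions.result A ε hA hε
      refine ⟨K, fun X hX => le_trans ?_ (hK X hX).2⟩
      have : {t : ℕ | 1 ≤ t ∧ t ≤ X ∧ 2 ≤ t ∧ ¬ Decided A t} ⊆ Exceptions A X := by
        rintro n ⟨_, h4, h2, h3⟩
        unfold Decided at h3
        push Not at h3
        exact ⟨h4, h2, h3.1, fun ⟨b, b1, b2, b3⟩ => h3.2 b b1 b2 b3⟩
      exact_mod_cast Set.ncard_le_ncard this (hK X hX).1)
  refine ⟨N₀, fun N hN => le_trans (le_of_eq ?_) (hN₀ N hN)⟩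
  congr 2
  ext m
  simp only [Set.mem_ofPred_eq]
  have : ∀ w : ℕ, (∀ n : ℕ, 2 ≤ n → |(n : ℝ) - G w| ≤ (w : ℝ) ^ κ → Decided A n) ↔
      ∀ n : ℕ, 1 ≤ n → 2 ≤ n → |(n : ℝ) - G w| ≤ (w : ℝ) ^ κ → Decided A n := fun w =>
    ⟨fun h n _ => h n, fun h n hn => h n (by omega) hn⟩
  simp only [this]

end Pool.Agent.Results.MP_0b15c0_nt.DivisorSums
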