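import Pool.Agent.U405.RS.F
import Pool.Agent.Results.MP_0b15c0_nt.SquareRootExceptions

/-!
# Small witnesses near functions of `φ(P(m))`, `φ(p + a)`, `σ(P(m))`, ...: thin sets of arguments

Let `f` be a positive multiplicative function of at most polynomial growth which for each `a ≥ 1` is injective at the powers
`p ^ a` of the large primes and at most `M p ^ a` there; for example Euler's function or the sum of the divisors. Let
`A ≥ 2`, `α > 0`, `d ≥ 1`, `κ ≥ 0` and `e = d / A + κ`. EVERY integer `n ≥ 2` with `|n - α f(v)^d| ≤ f(v)^κ` is prime or has a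
witness `b ≤ 2 (log n)^A` for almost all `v` (with a saving of any power of the logarithm) in each of these sets:

* the values of any integer polynomial without repeated roots, of degree `< 1 / e`;
* the shifted primes `p + a`, `a` any integer, if `e < 1`;
* the intervals `(x, x + y]`, `y ≥ x^τ`, for every `τ > e`.

For instance, taking `A` large: for every polynomial `P` without repeated roots and almost all `m` the numbers `φ(P(m))` and
`σ(P(m))` are prime or have a witness `≤ 2 (log n)^A`, `A > deg P`; and for almost all primes `p` the numbers `φ(p - 1)` and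
`σ(p + 1)` are not exceptions to Q1 itself (`A = 2`, `e = 1 / 2`). The set of values `f(P(m))`, `f(p + a)` can meet a set of
`x^(1/2)` exceptions with large multiplicities, so the size of the exceptional set is not enough.

Proof. Own tool `Pool.Agent.U405.RS`: let `S` be a set of at least `N^(θ + δ)` integers up to `N` with at most
`B g^ω(k) |S| / k` multiples of `k` for every `k ≤ N^δ`, and let `W` have at most `C X^θ` elements up to `X`. Then `f(m) ∈ W` for at
most `|S| / (log N)^U` of the `m` in `S`. For this write `m = k w` with `k` composed of the primes `≤ z = N^(1 / J)`, `J` a small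
multiple of `log log N`. By Rankin's method with the weights `g^ω(k)` one has `k ≤ N^η` for most `m`; and `w` has at most `J`
prime factors and exponents `≤ J`, so that `w` is determined by `f(w)` up to `(J τ(f(w)) + 1)^J = N^o(1)` possibilities. The three
kinds of sets satisfy the hypothesis: for polynomials because `P` has at most `g` zeros modulo every prime power (elementary
lifting of zeros, with `U P + V P' = R`), for shifted primes by the Brun-Titchmarsh inequality (library). The number of exceptions
`n` is bounded by the starting theorem `SquareRootExceptions` of this problem.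
-/

set_option autoImplicit false

namespace Pool.Agent.Results.MP_0b15c0_nt.SparseArguments

open Finset
open Pool.Agent.N733.TG (Expanding expanding_pow)
open Pool.Agent.U405.RS (PM Sparse sparse_nat examples)
open Pool.Agent.Results.MP_0b15c0_nt.SquareRootExceptions (IsWitness Exceptions)

/-- `n` is prime or has a witness `1 < b ≤ 2 (log n)^A` for the strong test -/
def Decided (A : ℝ) (n : ℕ) : Prop :=
  n.Prime ∨ ∃ b : ℕ, 1 < b ∧ (b : ℝ) ≤ 2 * (Real.log n) ^ A ∧ IsWitness n b

/-- every integer `n ≥ 2` with `|n - G v| ≤ v^κ` is prime or has a witness `1 < b ≤ 2 (log n)^A` -/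
def Clear (A : ℝ) (G : ℕ → ℝ) (κ : ℝ) (v : ℕ) : Prop := ∀ n : ℕ, 2 ≤ n → |(n : ℝ) - G v| ≤ (v : ℝ) ^ κ → Decided A n

/-- **Small witnesses near `G (f v)` for the `v` in thin sets.** Let `f` be in the class `PM` (multiplicative and positive, of at
most polynomial growth, for each `a ≥ 1` injective and `≤ M p ^ a` at the powers `p ^ a` of the large primes), let `G` have
steps `≥ const > 0` and growth at most `v^d`, `A ≥ 2` and `κ ≥ 0`, and put `e = d / A + κ`. For every `U` the property `Clear A G κ`
holds at `f v` for almost all `v`, with a saving of `(log x)^U`, (`Sparse e f`): among the positive values of every integer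
polynomial without repeated roots of degree `n`, `n e < 1`; among the shifted primes `p + a` for every `a`, if `e < 1`; and in all
intervals `(x, x + y]`, `x^τ ≤ y ≤ x`, if `e < τ ≤ 1`. Euler's function and the sum of the divisors are in the class, and
`α v^d` with `α > 0`, `d ≥ 1` is an example of `G`. -/
theorem result :
    (∀ f : ℕ → ℕ, PM f → ∀ (G : ℕ → ℝ) (d : ℝ), Expanding G d → ∀ A κ : ℝ, 2 ≤ A → 0 ≤ κ → ∀ U : ℕ,
      Sparse (d / A + κ) f (Clear A G κ) U) ∧
    (PM Nat.totient ∧ PM (fun m => ∑ d ∈ m.divisors, d) ∧ PM (fun m => m)) ∧
    ∀ α d : ℝ, 0 < α → 1 ≤ d → Expanding (fun v => α * (v : ℝ) ^ d) d := by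
  refine ⟨fun f hf G d hG A κ hA hκ U => ?_, examples, fun α d hα hd => expanding_pow hα hd⟩
  have h := sparse_nat (fun n => 2 ≤ n) (Decided A) hf hG (s := 1 / A) (κ := κ) (by positivity) hκ (fun ε hε => by
      obtain ⟨K, hK⟩ := Pool.Agent.Results.MP_0b15c0_nt.SquareRootExceptions.result A ε hA hε
      refine ⟨K, fun X hX => le_trans ?_ (hK X hX).2⟩
      have : {t : ℕ | 1 ≤ t ∧ t ≤ X ∧ 2 ≤ t ∧ ¬ Decided A t} ⊆ Exceptions A X := by
        rintro n ⟨_, h4, h2, h3⟩
        unfold Decided at h3
        push Not at h3
        exact ⟨h4, h2, h3.1, fun ⟨b, b1, b2, b3⟩ => h3.2 b b1 b2 b3⟩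
      exact_mod_cast Set.ncard_le_ncard this (hK X hX).1) U
  rw [mul_one_div] at h
  exact h.imp (fun v hv n hn hc => hv n (by omega) hn hc)

end Pool.Agent.Results.MP_0b15c0_nt.SparseArguments
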